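import Pool.Agent.H.MP_4f6fd6_an.C

set_option autoImplicit false

namespace Pool.Agent.H.MP_db815c_an

open MeasureTheory ComplexConjugate Filter Topology Metric Pool.Agent.H.MP_4f6fd6_an
open scoped ENNReal InnerProductSpace

theorem exists_wot {H : Type} [NormedAddCommGroup H] [InnerProductSpace ℂ H] [CompleteSpace H]
    (A : ℕ → H →L[ℂ] H) {C : ℝ} (h : ∀ N x y, ‖⟪A N x, y⟫_ℂ‖ ≤ C * ‖x‖ * ‖y‖) :
    ∃ B : H →L[ℂ] H, ∀ x y, Tendsto (fun N => ⟪A N x, y⟫_ℂ) (hyperfilter ℕ) (𝓝 ⟪B x, y⟫_ℂ) := by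
  have : ∀ x y, ∃ c : ℂ, ‖c‖ ≤ C * ‖x‖ * ‖y‖ ∧
      Tendsto (fun N => ⟪A N x, y⟫_ℂ) (hyperfilter ℕ) (𝓝 c) := by
    intro x y
    obtain ⟨c, h1, h2⟩ := (isCompact_closedBall (0 : ℂ) (C * ‖x‖ * ‖y‖)).ultrafilter_le_nhds
      ((hyperfilter ℕ).map fun N => ⟪A N x, y⟫_ℂ)
      (le_principal_iff.2 (mem_map.2 (univ_mem' fun N => mem_closedBall_zero_iff.2 (h N x y))))
    exact ⟨c, by simpa using h1, h2⟩
  choose L h1 h2 using this
  let B : H →ₗ⋆[ℂ] H →ₗ[ℂ] ℂ := LinearMap.mk₂'ₛₗ _ _ L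
    (fun x x' y => tendsto_nhds_unique (h2 _ _) (by
      simpa only [map_add, inner_add_left] using (h2 x y).add (h2 x' y)))
    (fun c x y => tendsto_nhds_unique (h2 _ _) (by
      simpa only [map_smul, inner_smul_left, smul_eq_mul] using (h2 x y).const_mul (conj c)))
    (fun x y y' => tendsto_nhds_unique (h2 _ _) (by
      simpa only [inner_add_right] using (h2 x y).add (h2 x y')))
    (fun c x y => tendsto_nhds_unique (h2 _ _) (by
      simpa only [inner_smul_right, smul_eq_mul, RingHom.id_apply] using (h2 x y).const_mul c))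
  refine ⟨InnerProductSpace.continuousLinearMapOfBilin (B.mkContinuous₂ C h1), fun x y => ?_⟩
  rw [InnerProductSpace.continuousLinearMapOfBilin_apply]
  exact h2 x y

theorem comm_alg {R : Type} [CStarAlgebra R] (G : ℕ → R) (h1 : ∀ n, star (G n) = G n)
    (h2 : ∀ n, ‖G n‖ ≤ 1) {S : Set R}
    (hS : ∀ B ∈ S, Tendsto (fun n => G n * B - B * G n) atTop (𝓝 0)) {B : R}
    (hB : B ∈ (StarAlgebra.adjoin ℂ S).topologicalClosure) :
    Tendsto (fun n => G n * B - B * G n) atTop (𝓝 0) := by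
  let W : StarSubalgebra ℂ R :=
    { carrier := {B | Tendsto (fun n => G n * B - B * G n) atTop (𝓝 0)}
      mul_mem' := fun {a b} ha hb => by
        have := (Tendsto.mul_const b ha).add (Tendsto.const_mul a hb)
        rw [zero_mul, mul_zero, add_zero] at this
        exact this.congr fun n => by noncomm_ring
      add_mem' := fun {a b} ha hb => by
        have := Tendsto.add ha hb
        rw [add_zero] at this
        exact this.congr fun n => by noncomm_ring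
      algebraMap_mem' := fun c => by simp [Algebra.commutes]
      star_mem' := fun {a} ha => by
        have := (Tendsto.star ha).neg
        rw [star_zero, neg_zero] at this
        exact this.congr fun n => by simp [h1] }
  refine StarSubalgebra.topologicalClosure_minimal (t := W) (StarAlgebra.adjoin_le hS) ?_ hB
  refine isClosed_of_closure_subset fun b hb => NormedAddGroup.tendsto_nhds_zero.2 fun ε hε => ?_
  obtain ⟨c, hc, h3⟩ := Metric.mem_closure_iff.1 hb (ε / 3) (by positivity)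
  filter_upwards [NormedAddGroup.tendsto_nhds_zero.1 hc (ε / 3) (by positivity)] with n hn
  rw [dist_eq_norm] at h3
  have e1 := (norm_mul_le (G n) (b - c)).trans (mul_le_of_le_one_left (norm_nonneg _) (h2 n))
  have e2 := (norm_mul_le (b - c) (G n)).trans (mul_le_of_le_one_right (norm_nonneg _) (h2 n))
  rw [show G n * b - b * G n = G n * c - c * G n + G n * (b - c) - (b - c) * G n by noncomm_ring]
  linarith [norm_sub_le (G n * c - c * G n + G n * (b - c)) ((b - c) * G n),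
    norm_add_le (G n * c - c * G n) (G n * (b - c))]

theorem ext_e {f g : L2} (h : ∀ n, ⟪e n, f⟫_ℂ = ⟪e n, g⟫_ℂ) : f = g := by
  refine (fourierBasis (T := 1)).repr.injective (lp.ext (funext fun n => ?_))
  rw [HilbertBasis.repr_apply_apply, HilbertBasis.repr_apply_apply, coe_fourierBasis]
  exact h n

theorem e_e (n m : ℤ) : ⟪e n, e m⟫_ℂ = if n = m then 1 else 0 := orthonormal_iff_ite.1 e_on n m

theorem e_mem {n : ℤ} (h : 0 ≤ n) : e n ∈ H2 := mem_H2.2 fun _ hn => e_on.2 (by omega)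

theorem e_P (n : ℤ) (w : L2) : ⟪e n, P w⟫_ℂ = if 0 ≤ n then ⟪e n, w⟫_ℂ else 0 := by
  split_ifs with h
  · exact P_inner (e_mem h) w
  · exact mem_H2.1 (P_mem w) n (not_le.1 h)

theorem P_self {h : L2} (hh : h ∈ H2) : P h = h := H2.starProjection_eq_self_iff.2 hh

theorem P_adj (f g : L2) : ⟪P f, g⟫_ℂ = ⟪f, P g⟫_ℂ := H2.inner_starProjection_left_eq_right f g

theorem P_z (w : L2) : P (M z w) = M z (P w) + ⟪e (-1), w⟫_ℂ • e 0 := by
  refine ext_e fun n => ?_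
  rw [inner_add_right, e_P, e_z, e_z, e_P, inner_smul_right, e_e]
  rcases lt_trichotomy n 0 with h | rfl | h
  · rw [if_neg (by omega), if_neg (by omega), if_neg h.ne]
    simp
  · simp
  · rw [if_pos h.le, if_pos (by omega), if_neg h.ne']
    simp

theorem coef {ψ : T → ℂ} (h : Bd ψ) (m j : ℤ) : ⟪e m, M ψ (e j)⟫_ℂ = fourierCoeff ψ (m - j) := by
  rw [inner_eq, fourierCoeff]
  refine integral_congr_ae ?_
  filter_upwards [rep_M h (e j), rep_e j, rep_e m] with x h2 h3 h4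
  rw [h2, h3, h4, neg_sub, sub_eq_add_neg, fourier_add, fourier_neg, smul_eq_mul]
  ring

theorem M_add {φ ψ : T → ℂ} (h : Bd φ) (h' : Bd ψ) (f : L2) :
    M (fun x => φ x + ψ x) f = M φ f + M ψ f := by
  refine rep_ext ?_
  filter_upwards [rep_M (h.add h') f, rep_add (M φ f) (M ψ f), rep_M h f, rep_M h' f]
    with x h1 h2 h3 h4
  rw [h2, h3, h4, ← add_mul]
  exact h1

theorem M_sub {φ ψ : T → ℂ} (h : Bd φ) (h' : Bd ψ) (f : L2) :
    M (fun x => φ x - ψ x) f = M φ f - M ψ f := by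
  refine rep_ext ?_
  filter_upwards [rep_M (h.sub h') f, rep_sub (M φ f) (M ψ f), rep_M h f, rep_M h' f]
    with x h1 h2 h3 h4
  rw [h2, h3, h4, ← sub_mul]
  exact h1

theorem bd_const (c : ℂ) : Bd fun _ => c := .of_cont continuous_const

theorem M_smul {φ : T → ℂ} (h : Bd φ) (c : ℂ) (f : L2) :
    M (fun x => c * φ x) f = c • M φ f := by
  refine rep_ext ?_
  filter_upwards [rep_M ((bd_const c).mul h) f, rep_smul c (M φ f), rep_M h f] with x h1 h2 h3
  rw [h1, h2, h3, mul_assoc]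

theorem M_sum {φ : ℕ → T → ℂ} (h : ∀ n, Bd (φ n)) (N : ℕ) (f : L2) :
    M (fun x => ∑ n ∈ Finset.range N, φ n x) f = ∑ n ∈ Finset.range N, M (φ n) f := by
  induction N with
  | zero => simpa using M_smul (bd_const 0) 0 f
  | succ N ih =>
    simp only [Finset.sum_range_succ]
    rw [M_add (memLp_finsetSum _ fun i _ => h i) (h N), ih]

theorem M_le {φ : T → ℂ} (h : Bd φ) {C : ℝ} (h1 : ∀ x, ‖φ x‖ ≤ C) (f : L2) :
    ‖M φ f‖ ≤ C * ‖f‖ :=
  norm_le ((rep_M h f).mono fun x hx => by rw [hx, norm_mul]; gcongr; exact h1 x)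

theorem M_comm {φ ψ : T → ℂ} (h : Bd φ) (h' : Bd ψ) (f : L2) : M φ (M ψ f) = M ψ (M φ f) := by
  rw [← M_mul h h', ← M_mul h' h]
  simp only [mul_comm]

theorem weak' {φ : ℕ → T → ℂ} {ψ : T → ℂ} {C : ℝ} (h1 : ∀ n, Bd (φ n)) (h2 : ∀ n x, ‖φ n x‖ ≤ C)
    (h3 : ∀ x, Tendsto (φ · x) atTop (𝓝 (ψ x))) :
    Bd ψ ∧ ∀ f g, Tendsto (fun N => ⟪f, M (φ N) g⟫_ℂ) atTop (𝓝 ⟪f, M ψ g⟫_ℂ) := by
  have b : Bd ψ := memLp_top_of_bound (aestronglyMeasurable_of_tendsto_ae atTop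
    (fun N => (h1 N).1) (.of_forall h3)) C
    (.of_forall fun x => le_of_tendsto' (h3 x).norm fun n => h2 n x)
  refine ⟨b, fun f g => ?_⟩
  have e1 : ∀ ψ, Bd ψ → ⟪f, M ψ g⟫_ℂ = ∫ x, ψ x * (conj (rep f x) * rep g x) ∂μ := by
    intro ψ h
    rw [inner_eq]
    refine integral_congr_ae ?_
    filter_upwards [rep_M h g] with x hx
    rw [hx]
    ring
  simp only [e1 _ (h1 _), e1 _ b]
  refine tendsto_integral_of_dominated_convergence _
    (fun N => (h1 N).1.mul (int_mul f g).1) ((int_mul f g).norm.const_mul C)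
    (fun N => .of_forall fun x => by rw [norm_mul]; gcongr; exact h2 N x) ?_
  exact .of_forall fun x => (h3 x).mul_const _

theorem rec_gen {W : Submodule ℂ L2} (hW : IsClosed (W : Set L2)) {R : L2 →L[ℂ] L2} {c : ℝ}
    (hc : c < 1) (h0 : 0 ≤ c) (h1 : ∀ f, ‖R f‖ ≤ c * ‖f‖) (h2 : ∀ f ∈ W, R f ∈ W) {x y : L2}
    (hx : x ∈ W) (h : y = x + R y) : y ∈ W := by
  have key : ∀ j : ℕ, ∃ w ∈ W, ‖y - w‖ ≤ c ^ j * ‖y‖ := by
    intro j
    induction j with
    | zero => exact ⟨0, zero_mem W, by simp⟩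
    | succ j ih =>
      obtain ⟨w, hw, h3⟩ := ih
      refine ⟨x + R w, add_mem hx (h2 w hw), ?_⟩
      rw [show y - (x + R w) = R (y - w) by rw [map_sub]; nth_rw 1 [h]; abel, pow_succ', mul_assoc]
      exact (h1 _).trans (by gcongr)
  choose w h3 h4 using key
  refine hW.mem_of_tendsto (f := w) (b := atTop) ?_ (.of_forall h3)
  refine tendsto_iff_norm_sub_tendsto_zero.2 (squeeze_zero (fun _ => norm_nonneg _)
    (fun j => (norm_sub_rev _ _).trans_le (h4 j)) ?_)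
  simpa using (tendsto_pow_atTop_nhds_zero_of_lt_one h0 hc).mul_const ‖y‖

theorem kf_inv {W : Submodule ℂ L2} (hW : IsClosed (W : Set L2)) (h2 : ∀ f ∈ W, M z f ∈ W) {l : ℂ}
    (hl : ‖l‖ < 1) {f : L2} (hf : f ∈ W) : M (kf l) f ∈ W :=
  rec_gen hW (R := conj l • M z) hl (norm_nonneg l) (fun f => by
    rw [_root_.smul_apply, norm_smul, norm_M z_bd (.of_forall z_norm), Complex.norm_conj])
    (fun f hf => W.smul_mem _ (h2 f hf)) hf (kf_rec hl f)

theorem k_z {l : ℂ} (hl : ‖l‖ < 1) {g : L2} (hg : g ∈ H2) :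
    ⟪k l, M z g⟫_ℂ = l * ⟪k l, g⟫_ℂ := by
  conv_lhs => rw [k, kf_rec hl, inner_add_left, inner_smul_left, z_inner, e_z,
    mem_H2.1 hg _ (by norm_num), zero_add, Complex.conj_conj]
  rfl

theorem den_ne' {l v : ℂ} (hl : ‖l‖ < 1) (hv : ‖v‖ < 1) : 1 - conj v * l ≠ 0 := by
  intro h
  have := congrArg norm (sub_eq_zero.1 h)
  rw [norm_one, norm_mul, Complex.norm_conj] at this
  exact this.not_gt (mul_lt_one_of_nonneg_of_lt_one_left (norm_nonneg _) hv hl.le)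

theorem k_kf {l v : ℂ} (hl : ‖l‖ < 1) (hv : ‖v‖ < 1) {h : L2} (hh : h ∈ H2) :
    ⟪k l, M (kf v) h⟫_ℂ = (1 - conj v * l)⁻¹ * ⟪k l, h⟫_ℂ := by
  have h1 := congrArg (fun w => ⟪k l, w⟫_ℂ) (kf_rec hv h)
  simp only [inner_add_right, inner_smul_right, k_z hl (kf_mem hv hh)] at h1
  rw [eq_inv_mul_iff_mul_eq₀ (den_ne' hl hv)]
  linear_combination h1

theorem P_conj {ψ : T → ℂ} (h : Bd ψ) {l c : ℂ} (hl : ‖l‖ < 1)
    (h1 : ∀ w ∈ H2, ⟪k l, M ψ w⟫_ℂ = c * ⟪k l, w⟫_ℂ) :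
    P (M (fun x => conj (ψ x)) (k l)) = conj c • k l := by
  rw [← P_self (H2.smul_mem (conj c) (k_mem hl))]
  refine P_eq fun w hw => ?_
  rw [← M_adj h, ← inner_conj_symm, h1 w hw, inner_smul_right, map_mul, inner_conj_symm]

/-- arcs -/
def E (n : ℕ) : Set T := ball (p n) (a n / 4)

theorem E_meas (n : ℕ) : MeasurableSet (E n) := measurableSet_ball

theorem E_sum (F : Finset ℕ) (x : T) : ∑ n ∈ F, ‖χ (E n) x‖ ≤ 1 := by
  by_cases h : ∃ n, x ∈ E n
  · obtain ⟨n, hn⟩ := h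
    have : ∀ m, m ≠ n → ‖χ (E m) x‖ = 0 := by
      intro m hm
      have h1 := p_sep hm
      have h2 := dist_triangle_left (p n) (p m) x
      have : x ∉ E m := fun h => by
        rw [E, mem_ball] at h hn
        linarith
      simp [χ, this]
    by_cases hF : n ∈ F
    · rw [Finset.sum_eq_single_of_mem n hF fun m _ => this m]
      simp [χ, hn]
    · rw [Finset.sum_eq_zero fun m hm => this m fun h => hF (h ▸ hm)]
      exact zero_le_one
  · push Not at h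
    simp [χ, h]

theorem a_sum_le (F : Finset ℕ) : ∑ n ∈ F, a n ≤ 1 / 2 := by
  refine (a_sum.sum_le_tsum F fun n _ => (a_pos n).le).trans_eq ?_
  unfold a
  rw [tsum_div_const, tsum_geometric_two]
  norm_num

theorem bessel {w : ℕ → L2} {K : ℝ} (h1 : ∀ n, ‖w n‖ ≤ K)
    (h2 : ∀ n, ∀ᵐ x ∂μ, x ∉ E n → ‖rep (w n) x‖ ≤ K * a n) (f : L2) (N : ℕ) :
    ∑ n ∈ Finset.range N, ‖⟪w n, f⟫_ℂ‖ ^ 2 ≤ (2 * K * ‖f‖) ^ 2 := by
  have K0 : 0 ≤ K := (norm_nonneg _).trans (h1 0)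
  have s1 : ∑ n ∈ Finset.range N, ‖M (χ (E n)) f‖ ^ 2 ≤ ‖f‖ ^ 2 := by
    have : ∀ n, ‖M (χ (E n)) f‖ ^ 2 = RCLike.re ⟪f, M (χ (E n)) f⟫_ℂ := fun n => by
      rw [← inner_self_eq_norm_sq (𝕜 := ℂ), χ_adj (E_meas n), χ_idem (E_meas n)]
    simp only [this]
    rw [← map_sum, ← inner_sum, ← M_sum fun n => χ_bd (E_meas n)]
    refine (re_inner_le_norm _ _).trans ?_
    rw [sq]
    gcongr
    exact (M_le (memLp_finsetSum _ fun n _ => χ_bd (E_meas n))
      (fun x => (norm_sum_le _ _).trans (E_sum _ x)) f).trans_eq (one_mul _)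
  have s2 : ∀ n, ‖⟪w n, f⟫_ℂ‖ ≤ K * ‖M (χ (E n)) f‖ + K * a n * ‖f‖ := by
    intro n
    have : ‖w n - M (χ (E n)) (w n)‖ ≤ K * a n * ‖e 0‖ := by
      refine norm_le ?_
      filter_upwards [rep_sub (w n) (M (χ (E n)) (w n)), rep_χ (E_meas n) (w n), h2 n, rep_e 0]
        with x e1 e2 e3 e4
      rw [e1, e4]
      by_cases hx : x ∈ E n
      · rw [e2.1 hx, sub_self, norm_zero]
        have := a_pos n
        positivity
      · simpa [e2.2 hx] using e3 hx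
    rw [e_on.1 0, mul_one] at this
    rw [show ⟪w n, f⟫_ℂ = ⟪w n, M (χ (E n)) f⟫_ℂ + ⟪w n - M (χ (E n)) (w n), f⟫_ℂ by
      rw [inner_sub_left, χ_adj (E_meas n)]; ring]
    refine (norm_add_le _ _).trans (add_le_add ((norm_inner_le_norm _ _).trans ?_)
      ((norm_inner_le_norm _ _).trans ?_)) <;> gcongr
    exact h1 n
  calc _ ≤ ∑ n ∈ Finset.range N, (2 * K ^ 2 * ‖M (χ (E n)) f‖ ^ 2 + 2 * K ^ 2 * ‖f‖ ^ 2 * a n) := by
        refine Finset.sum_le_sum fun n _ => (pow_le_pow_left₀ (norm_nonneg _) (s2 n) 2).trans ?_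
        have := a_pos n
        have : a n ^ 2 ≤ a n := by nlinarith [a_le n]
        nlinarith [sq_nonneg (K * ‖M (χ (E n)) f‖ - K * a n * ‖f‖),
          mul_le_mul_of_nonneg_left this (sq_nonneg (K * ‖f‖))]
    _ ≤ 2 * K ^ 2 * ‖f‖ ^ 2 + 2 * K ^ 2 * ‖f‖ ^ 2 * 1 := by
        rw [Finset.sum_add_distrib, ← Finset.mul_sum, ← Finset.mul_sum]
        gcongr
        linarith [a_sum_le (Finset.range N)]
    _ = _ := by ring

end Pool.Agent.H.MP_db815c_an
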