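import Pool.Agent.H.MP_db815c_an.A

set_option autoImplicit false

namespace Pool.Agent.H.MP_db815c_an

open MeasureTheory ComplexConjugate Filter Topology Metric Pool.Agent.H.MP_4f6fd6_an Finset
open scoped ENNReal InnerProductSpace

/-- points on the ray -/
noncomputable def pt (n : ℕ) (t : ℝ) : ℂ := (1 - t : ℝ) * z (p n)

/-- admissible depth -/
def Ok (n : ℕ) (t : ℝ) : Prop := 0 < t ∧ t ≤ a n / 2

section pt

variable {n : ℕ} {t : ℝ} (ht : Ok n t)
include ht

theorem Ok.lt : t ≤ 1 / 8 := by linarith [ht.2, a_le n]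

theorem pt_norm : ‖pt n t‖ = 1 - t := by
  rw [pt, norm_mul, z_norm, mul_one, Complex.norm_real, Real.norm_of_nonneg (by linarith [ht.lt])]

theorem pt_lt : ‖pt n t‖ < 1 := by
  rw [pt_norm ht]
  exact sub_lt_self _ ht.1

theorem pt_bd : Bd (kf (pt n t)) := .of_cont (kf_cont (pt_lt ht))

theorem kf_le (x : T) : ‖kf (pt n t) x‖ ≤ t⁻¹ := by
  have := norm_sub_norm_le (z x) (pt n t)
  rw [z_norm, pt_norm ht] at this
  rw [kf_norm]
  exact inv_anti₀ ht.1 (by linarith)

theorem pt_sub : ‖z (p n) - pt n t‖ = t := by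
  rw [show z (p n) - pt n t = t * z (p n) by rw [pt]; push_cast; ring, norm_mul,
    z_norm, mul_one, Complex.norm_real, Real.norm_of_nonneg ht.1.le]

theorem kf_off {x : T} (hx : x ∉ E n) : ‖kf (pt n t) x‖ ≤ 2 / a n := by
  have h2 := (chord x (p n)).1
  have h4 := dist_triangle_right (z x) (z (p n)) (pt n t)
  simp only [dist_eq_norm (E := ℂ), pt_sub ht] at h4
  rw [E, mem_ball, not_lt] at hx
  rw [kf_norm, ← inv_div]
  exact inv_anti₀ (half_pos (a_pos n)) (by linarith [ht.2])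

theorem k_le : t * ‖k (pt n t)‖ ^ 2 ≤ 1 := by
  rw [← k_norm (pt_lt ht), pt_norm ht]
  gcongr
  nlinarith [ht.lt, ht.1]

end pt

theorem ok_pow (n j : ℕ) : Ok n (a n ^ (j + 2)) := by
  have h0 := a_pos n
  have h1 := a_le n
  refine ⟨by positivity, ?_⟩
  have : a n ^ j ≤ 1 := pow_le_one₀ h0.le (by linarith)
  calc a n ^ (j + 2) = a n ^ j * a n * a n := by ring
    _ ≤ 1 * (1 / 2) * a n := by gcongr; linarith
    _ = _ := by ring

/-- deep points -/
noncomputable def L (n : ℕ) : ℂ := pt n (a n ^ 6)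

/-- shallow points -/
noncomputable def U (n : ℕ) : ℂ := pt n (a n ^ 4)

theorem okL (n : ℕ) : Ok n (a n ^ 6) := ok_pow n 4

theorem okU (n : ℕ) : Ok n (a n ^ 4) := ok_pow n 2

theorem L_lt (n : ℕ) : ‖L n‖ < 1 := pt_lt (okL n)

theorem U_lt (n : ℕ) : ‖U n‖ < 1 := pt_lt (okU n)

theorem LU (n : ℕ) : ‖conj (U n) - conj (L n)‖ ≤ a n ^ 4 := by
  have h0 := a_pos n
  have h1 : a n ^ 6 ≤ a n ^ 4 := pow_le_pow_of_le_one h0.le (by linarith [a_le n]) (by norm_num)
  rw [← map_sub, Complex.norm_conj, L, U, pt, pt, ← sub_mul, norm_mul, z_norm, mul_one,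
    ← Complex.ofReal_sub, Complex.norm_real, Real.norm_eq_abs, abs_le]
  constructor <;> linarith [pow_pos h0 6]

/-- linear factor -/
noncomputable def nf (l : ℂ) (x : T) : ℂ := 1 - conj l * z x

theorem nf_cont (l : ℂ) : Continuous (nf l) := continuous_const.sub (continuous_const.mul z_cont)

theorem nf_op (l : ℂ) (f : L2) : M (nf l) f = f - conj l • M z f := by
  have := M_sub (bd_const 1) ((bd_const (conj l)).mul z_bd) f
  rwa [M_one, M_smul z_bd] at this

/-- quotient -/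
noncomputable def qf (l v : ℂ) (x : T) : ℂ := nf l x * kf v x

theorem qf_cont (l : ℂ) {v : ℂ} (hv : ‖v‖ < 1) : Continuous (qf l v) :=
  (nf_cont l).mul (kf_cont hv)

theorem qf_op (l : ℂ) {v : ℂ} (hv : ‖v‖ < 1) (f : L2) : M (qf l v) f = M (nf l) (M (kf v) f) :=
  M_mul (.of_cont (nf_cont l)) (.of_cont (kf_cont hv)) f

/-- invariant subspace -/
def Inv (W : Submodule ℂ L2) : Prop := IsClosed (W : Set L2) ∧ ∀ f ∈ W, M z f ∈ W

theorem inv_H2 : Inv H2 := ⟨Submodule.isClosed_orthogonal _, fun _ => z_mem⟩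

theorem Inv.qf {W : Submodule ℂ L2} (h : Inv W) (l : ℂ) {v : ℂ} (hv : ‖v‖ < 1) {f : L2}
    (hf : f ∈ W) : M (qf l v) f ∈ W := by
  have := kf_inv h.1 h.2 hv hf
  rw [qf_op l hv, nf_op]
  exact sub_mem this (W.smul_mem _ (h.2 _ this))

theorem prod_inv {W : Submodule ℂ L2} {ψ : ℕ → T → ℂ} (h : ∀ m, Continuous (ψ m))
    (h1 : ∀ m, ∀ f ∈ W, M (ψ m) f ∈ W) (N : ℕ) {f : L2} (hf : f ∈ W) :
    M (fun x => ∏ m ∈ range N, ψ m x) f ∈ W := by
  induction N generalizing f with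
  | zero => exact (M_one f).symm ▸ hf
  | succ N ih =>
    simp only [prod_range_succ]
    rw [M_mul (.of_cont (continuous_finsetProd _ fun m _ => h m)) (.of_cont (h N))]
    exact ih (h1 _ _ hf)

/-- factors -/
noncomputable def γ (m : ℕ) : T → ℂ := qf (L m) (U m)

theorem γ_cont (m : ℕ) : Continuous (γ m) := qf_cont _ (U_lt m)

theorem a_four (m : ℕ) : a m ^ 4 * (2 / a m) ≤ a m / 8 := by
  have := a_pos m
  have := a_cube m
  rw [show a m ^ 4 * (2 / a m) = 2 * a m ^ 3 by field_simp]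
  linarith

theorem γ_sub (m : ℕ) (x : T) : ‖γ m x - 1‖ ≤ ‖χ (E m) x‖ + a m := by
  have h0 := a_pos m
  have h1 : γ m x - 1 = (conj (U m) - conj (L m)) * z x * kf (U m) x := by
    have := mul_inv_cancel₀ (den_ne (U_lt m) x)
    rw [γ, qf, nf, kf]
    linear_combination this
  rw [h1, norm_mul, norm_mul, z_norm, mul_one]
  by_cases hx : x ∈ E m
  · refine (mul_le_mul (LU m) (kf_le (okU m) x) (norm_nonneg _) (by positivity)).trans ?_
    rw [mul_inv_cancel₀ (by positivity)]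
    simp [χ, hx, h0.le]
  · refine (mul_le_mul (LU m) (kf_off (okU m) hx) (norm_nonneg _) (by positivity)).trans ?_
    linarith [a_four m, norm_nonneg (χ (E m) x)]

theorem γ_sum (F : Finset ℕ) (x : T) : ∑ m ∈ F, ‖γ m x - 1‖ ≤ 2 := by
  refine (sum_le_sum fun m _ => γ_sub m x).trans ?_
  rw [sum_add_distrib]
  linarith [E_sum F x, a_sum_le F]

/-- the constant -/
noncomputable def C : ℝ := Real.exp 2

theorem C_pos : 0 < C := Real.exp_pos 2

theorem γ_prod (F : Finset ℕ) (x : T) : ‖∏ m ∈ F, γ m x‖ ≤ C := by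
  have h1 := F.norm_prod_one_add_sub_one_le fun m => γ m x - 1
  have h2 := norm_sub_norm_le (∏ m ∈ F, γ m x) 1
  have h3 := Real.exp_le_exp.2 (γ_sum F x)
  simp only [add_sub_cancel, norm_one] at h1 h2
  rw [C]
  linarith

/-- partial products -/
noncomputable def G (N : ℕ) (x : T) : ℂ := ∏ m ∈ range N, γ m x

/-- the function g -/
noncomputable def g (x : T) : ℂ := ∏' m, γ m x

theorem γ_summ (x : T) : Summable fun m => ‖γ m x - 1‖ :=
  summable_of_sum_le (fun _ => norm_nonneg _) fun F => γ_sum F x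

theorem G_lim (x : T) : Tendsto (G · x) atTop (𝓝 (g x)) := by
  simpa [G, g] using (multipliable_one_add_of_summable (γ_summ x)).tendsto_prod_tprod_nat

theorem γ_inv (m : ℕ) (x : T) : γ m x * qf (U m) (L m) x = 1 := by
  have h1 := mul_inv_cancel₀ (den_ne (U_lt m) x)
  have h2 := mul_inv_cancel₀ (den_ne (L_lt m) x)
  simp only [γ, qf, nf, kf]
  linear_combination ((1 - conj (L m) * z x) * (1 - conj (L m) * z x)⁻¹) * h1 + h2

theorem g_ne (x : T) : g x ≠ 0 := by
  simpa [g] using tprod_one_add_ne_zero_of_summable (f := fun m => γ m x - 1)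
    (fun m => by simpa using left_ne_zero_of_mul_eq_one (γ_inv m x)) (γ_summ x)

theorem g_le (F : Finset ℕ) (x : T) : ‖g x‖ ≤ C * ‖∏ m ∈ F, γ m x‖ := by
  refine le_of_tendsto (G_lim x).norm ?_
  filter_upwards [eventually_gt_atTop (F.sup id)] with N hN
  rw [G, ← prod_sdiff (s₁ := F) fun m hm => mem_range.2 ((le_sup (f := id) hm).trans_lt hN), norm_mul]
  gcongr
  exact γ_prod _ x

theorem G_bd (N : ℕ) : Bd (G N) := .of_cont (continuous_finsetProd _ fun m _ => γ_cont m)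

theorem g_bd : Bd g := (weak' G_bd (fun _ => γ_prod _) G_lim).1

theorem g_weak (f w : L2) : Tendsto (fun N => ⟪f, M (G N) w⟫_ℂ) atTop (𝓝 ⟪f, M g w⟫_ℂ) :=
  (weak' G_bd (fun _ => γ_prod _) G_lim).2 f w

theorem G_mem (N : ℕ) {w : L2} (hw : w ∈ H2) : M (G N) w ∈ H2 :=
  prod_inv γ_cont (fun m _ => inv_H2.qf _ (U_lt m)) N hw

theorem g_mem {w : L2} (hw : w ∈ H2) : M g w ∈ H2 := mem_H2.2 fun n hn => by
  have := g_weak (e n) w
  simp only [mem_H2.1 (G_mem _ hw) n hn] at this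
  exact tendsto_nhds_unique this tendsto_const_nhds

/-- orthogonality subspace -/
noncomputable def Wv (v : L2) : Submodule ℂ L2 :=
  ⨅ j : ℕ, LinearMap.ker ((innerSL ℂ v).comp (M z ^ j)).toLinearMap

theorem mem_Wv {v f : L2} : f ∈ Wv v ↔ ∀ j : ℕ, ⟪v, (M z ^ j) f⟫_ℂ = 0 := by
  rw [Wv, Submodule.mem_iInf]
  rfl

theorem inv_Wv (v : L2) : Inv (Wv v) := by
  refine ⟨?_, fun f hf => mem_Wv.2 fun j => ?_⟩
  · rw [Wv, Submodule.coe_iInf]
    exact isClosed_iInter fun j => ContinuousLinearMap.isClosed_ker _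
  · simpa [pow_succ] using mem_Wv.1 hf (j + 1)

theorem zpow_e (j : ℕ) (n : ℤ) : (M z ^ j) (e n) = e (n + j) := by
  induction j with
  | zero => simp
  | succ j ih => rw [pow_succ', mul_apply_eq_comp, ih, z_e, Nat.cast_succ, add_assoc]

theorem Wv_zero {v : L2} (hv : v ∈ H2) (h : e 0 ∈ Wv v) : v = 0 := ext_e fun n => by
  rw [inner_zero_right]
  rcases lt_or_ge n 0 with hn | hn
  · exact mem_H2.1 hv n hn
  · have := mem_Wv.1 h n.toNat
    rwa [zpow_e, zero_add, Int.toNat_of_nonneg hn, inner_eq_zero_symm] at this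

theorem g_cyc {v : L2} (hv : v ∈ H2) (h : M g (e 0) ∈ Wv v) : v = 0 := by
  have c : ∀ N, Continuous fun x => ∏ m ∈ range N, qf (U m) (L m) x :=
    fun N => continuous_finsetProd _ fun m _ => qf_cont _ (L_lt m)
  have i : ∀ N x, ∏ m ∈ range N, qf (U m) (L m) x = (G N x)⁻¹ := fun N x =>
    eq_inv_of_mul_eq_one_right (by simp [G, ← prod_mul_distrib, γ_inv])
  have n : ∀ N x, G N x ≠ 0 := fun N x =>
    prod_ne_zero_iff.2 fun m _ => left_ne_zero_of_mul_eq_one (γ_inv m x)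
  have w := (weak' (φ := fun N x => (∏ m ∈ range N, qf (U m) (L m) x) * g x) (ψ := fun _ => 1)
    (C := C) (fun N => (Bd.of_cont (c N)).mul g_bd) (fun N x => by
      rw [i, norm_mul, norm_inv, inv_mul_le_iff₀ (norm_pos_iff.2 (n N x)), mul_comm]
      exact g_le _ x) fun x => by
      simpa only [i, inv_mul_cancel₀ (g_ne x)] using ((G_lim x).inv₀ (g_ne x)).mul_const (g x)).2
  refine Wv_zero hv (mem_Wv.2 fun j => ?_)
  have h1 := w (ContinuousLinearMap.adjoint (M z ^ j) v) (e 0)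
  simp only [ContinuousLinearMap.adjoint_inner_left, M_one, M_mul (.of_cont (c _)) g_bd,
    mem_Wv.1 (prod_inv (fun m => qf_cont _ (L_lt m)) (fun m _ => (inv_Wv v).qf _ (L_lt m)) _ h)] at h1
  exact tendsto_nhds_unique h1 tendsto_const_nhds

theorem k_G {l : ℂ} (hl : ‖l‖ < 1) (N : ℕ) {w : L2} (hw : w ∈ H2) : ⟪k l, M (G N) w⟫_ℂ =
    (∏ m ∈ range N, (1 - conj (L m) * l) * (1 - conj (U m) * l)⁻¹) * ⟪k l, w⟫_ℂ := by
  induction N generalizing w with
  | zero => simp [show G 0 = fun _ => 1 from rfl, M_one]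
  | succ N ih =>
    have m := kf_mem (U_lt N) hw
    rw [show G (N + 1) = fun x => G N x * γ N x from funext fun x => prod_range_succ _ _,
      M_mul (G_bd N) (.of_cont (γ_cont N)), γ, ih (inv_H2.qf _ (U_lt N) hw), qf_op _ (U_lt N), nf_op,
      inner_sub_right, inner_smul_right, k_z hl m, k_kf hl (U_lt N) hw, prod_range_succ]
    ring

theorem same (n : ℕ) (s t : ℝ) : 1 - conj (pt n s) * pt n t = (s + t - s * t : ℝ) := by
  have h1 : z (p n) * conj (z (p n)) = 1 := by simp [Complex.mul_conj', z_norm]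
  rw [pt, pt, map_mul, Complex.conj_ofReal]
  push_cast
  linear_combination (-(1 - s : ℂ) * (1 - t)) * h1

theorem far {m n : ℕ} (h : m ≠ n) : a m ≤ ‖1 - conj (U m) * U n‖ := by
  have h1 : z (p m) * conj (z (p m)) = 1 := by simp [Complex.mul_conj', z_norm]
  have h2 : z (p m) - z (p n) = z (p m) * (1 - conj (U m) * U n) - (z (p m) - U m) * (conj (z (p m)) * U n) -
      (z (p n) - U n) := by
    simp only [U, pt, map_mul, Complex.conj_ofReal]
    linear_combination (((1 - a n ^ 4 : ℝ) : ℂ) * z (p n)) * h1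
  have h3 := (chord (p m) (p n)).1
  have h4 := p_sep h
  have h5 := (okU m).2
  have h6 := (okU n).2
  have h7 : ‖(z (p m) - U m) * (conj (z (p m)) * U n)‖ ≤ a m ^ 4 := by
    rw [norm_mul, norm_mul, Complex.norm_conj, z_norm, one_mul, U, pt_sub (okU m)]
    exact mul_le_of_le_one_right (okU m).1.le (U_lt n).le
  have h8 := (norm_sub_le _ (z (p n) - U n)).trans (add_le_add_left (norm_sub_le
    (z (p m) * (1 - conj (U m) * U n)) ((z (p m) - U m) * (conj (z (p m)) * U n))) _)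
  rw [← h2, norm_mul, z_norm, one_mul, show ‖z (p n) - U n‖ = _ from pt_sub (okU n)] at h8
  rw [dist_comm] at h3
  linarith

theorem g_low (n : ℕ) {w : L2} (hw : w ∈ H2) :
    1 / 4 * ‖⟪k (U n), w⟫_ℂ‖ ≤ ‖⟪k (U n), M g w⟫_ℂ‖ := by
  refine ge_of_tendsto (g_weak _ w).norm ?_
  filter_upwards [eventually_gt_atTop n] with N hN
  rw [k_G (U_lt n) N hw, norm_mul, ← mul_prod_erase _ _ (mem_range.2 hN), norm_mul]
  have h0 := a_pos n
  have h1 : 1 / 2 ≤ ‖(1 - conj (L n) * U n) * (1 - conj (U n) * U n)⁻¹‖ := by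
    have e1 := okL n
    have e2 := okU n
    have e3 := e2.lt
    rw [L, U, same, same, ← Complex.ofReal_inv, ← Complex.ofReal_mul, Complex.norm_real,
      ← div_eq_mul_inv]
    refine le_trans ?_ (le_abs_self _)
    rw [le_div_iff₀ (by nlinarith [e2.1])]
    nlinarith [e1.1, e2.1]
  have h2 := ((range N).erase n).norm_prod_one_add_sub_one_le
    fun m => (1 - conj (L m) * U n) * (1 - conj (U m) * U n)⁻¹ - 1
  have h3 : ∑ m ∈ (range N).erase n, ‖(1 - conj (L m) * U n) * (1 - conj (U m) * U n)⁻¹ - 1‖ ≤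
      ∑ m ∈ (range N).erase n, 1 / 8 * a m := sum_le_sum fun m hm => by
    have e1 := mul_inv_cancel₀ (den_ne' (U_lt n) (U_lt m))
    have e2 := a_pos m
    rw [show (1 - conj (L m) * U n) * (1 - conj (U m) * U n)⁻¹ - 1 = (conj (U m) - conj (L m)) *
      U n * (1 - conj (U m) * U n)⁻¹ by linear_combination e1, norm_mul, norm_mul, norm_inv]
    calc _ ≤ a m ^ 4 * 1 * (a m)⁻¹ := by
          gcongr
          exacts [LU m, (U_lt n).le, far (ne_of_mem_erase hm)]
      _ = a m ^ 3 := by field_simp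
      _ ≤ _ := by linarith [a_cube m]
  rw [← mul_sum] at h3
  have h4 := Real.exp_le_exp.2 (h3.trans (show _ ≤ 1 / 4 by linarith [a_sum_le ((range N).erase n)]))
  have h5 := Real.exp_bound_div_one_sub_of_interval (x := 1 / 4) (by norm_num) (by norm_num)
  simp only [add_sub_cancel] at h2
  have h6 := norm_sub_norm_le 1 (∏ m ∈ (range N).erase n,
    (1 - conj (L m) * U n) * (1 - conj (U m) * U n)⁻¹)
  rw [norm_sub_rev, norm_one] at h6
  gcongr
  exact le_trans (by norm_num) (mul_le_mul h1 (show 1 / 2 ≤ _ by linarith) (by norm_num) (norm_nonneg _))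

end Pool.Agent.H.MP_db815c_an
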