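import Pool.Agent.H.MP_db815c_an.B

set_option autoImplicit false

namespace Pool.Agent.H.MP_db815c_an

open MeasureTheory ComplexConjugate Filter Topology Metric Pool.Agent.H.MP_4f6fd6_an Finset
open scoped ENNReal InnerProductSpace

/-- partial sums -/
noncomputable def hN (N : ℕ) (x : T) : ℂ := 1 + ∑ n ∈ range N, (a n ^ 5 : ℝ) * kf (L n) x

theorem L_bd (n : ℕ) : Bd (kf (L n)) := pt_bd (okL n)

theorem hN_cont (N : ℕ) : Continuous (hN N) :=
  continuous_const.add (continuous_finsetSum _ fun n _ => continuous_const.mul (kf_cont (L_lt n)))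

theorem hN_bd (N : ℕ) : Bd (hN N) := .of_cont (hN_cont N)

theorem hN_op (N : ℕ) (f : L2) :
    M (hN N) f = f + ∑ n ∈ range N, ((a n ^ 5 : ℝ) : ℂ) • M (kf (L n)) f := by
  have b : ∀ n, Bd fun x => (a n ^ 5 : ℝ) * kf (L n) x := fun n => (bd_const _).mul (L_bd n)
  have := M_add (bd_const 1) (memLp_finsetSum (range N) fun n _ => b n) f
  rw [M_one, M_sum b] at this
  simp only [M_smul (L_bd _)] at this
  exact this

theorem hN_conj (N : ℕ) (f : L2) : M (fun x => conj (hN N x)) f =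
    f + ∑ n ∈ range N, ((a n ^ 5 : ℝ) : ℂ) • M (fun x => conj (kf (L n) x)) f := by
  refine ext_inner_left ℂ fun w => ?_
  simp only [← M_adj (hN_bd N), hN_op, inner_add_left, inner_add_right, sum_inner, inner_sum,
    inner_smul_left, inner_smul_right, M_adj (L_bd _), Complex.conj_ofReal]

theorem sm_norm (r : ℝ) (hr : 0 ≤ r) (f : L2) : ‖(r : ℂ) • f‖ = r * ‖f‖ := by
  rw [norm_smul, Complex.norm_real, Real.norm_of_nonneg hr]

theorem kL_le (n : ℕ) : ‖((a n ^ 3 : ℝ) : ℂ) • k (L n)‖ ≤ 1 := by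
  rw [sm_norm _ (pow_pos (a_pos n) _).le, ← sq_le_one_iff₀ (by have := a_pos n; positivity), mul_pow,
    ← pow_mul]
  exact k_le (okL n)

theorem kU_le (n : ℕ) : ‖((a n ^ 2 : ℝ) : ℂ) • k (U n)‖ ≤ 1 := by
  rw [sm_norm _ (pow_pos (a_pos n) _).le, ← sq_le_one_iff₀ (by have := a_pos n; positivity), mul_pow,
    ← pow_mul]
  exact k_le (okU n)

theorem h_summ : Summable fun n => ((a n ^ 5 : ℝ) : ℂ) • k (L n) := by
  refine a_sum.of_norm_bounded fun n => ?_
  have h0 := a_pos n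
  have := kL_le n
  rw [sm_norm _ (by positivity)] at this ⊢
  calc _ = a n ^ 2 * (a n ^ 3 * ‖k (L n)‖) := by ring
    _ ≤ a n ^ 2 * 1 := by gcongr
    _ ≤ _ := by nlinarith [a_le n]

/-- the function h -/
noncomputable def h : L2 := e 0 + ∑' n, ((a n ^ 5 : ℝ) : ℂ) • k (L n)

theorem h_lim : Tendsto (fun N => M (hN N) (e 0)) atTop (𝓝 h) := by
  simp only [hN_op]
  exact h_summ.hasSum.tendsto_sum_nat.const_add _

theorem Inv.hN {W : Submodule ℂ L2} (hW : Inv W) (N : ℕ) {f : L2} (hf : f ∈ W) : M (hN N) f ∈ W := by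
  rw [hN_op]
  exact add_mem hf (sum_mem fun n _ => W.smul_mem _ (kf_inv hW.1 hW.2 (L_lt n) hf))

theorem h_mem : h ∈ H2 := inv_H2.1.mem_of_tendsto h_lim (.of_forall fun N => inv_H2.hN N e0_mem)

theorem inv_re {w : ℂ} (hw : ‖w‖ ≤ 1) : 0 ≤ (1 - w)⁻¹.re := by
  rw [Complex.inv_re]
  refine div_nonneg ?_ (Complex.normSq_nonneg _)
  simpa using (Complex.re_le_norm w).trans hw

theorem hN_re (N : ℕ) (x : T) : 1 ≤ (hN N x).re := by
  rw [hN, Complex.add_re, Complex.re_sum, Complex.one_re, le_add_iff_nonneg_right]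
  refine sum_nonneg fun n _ => ?_
  rw [Complex.re_ofReal_mul]
  exact mul_nonneg (pow_pos (a_pos n) _).le (inv_re (by simpa [z_norm] using (L_lt n).le))

theorem h_cyc {v : L2} (hv : v ∈ H2) (hh : h ∈ Wv v) : v = 0 := by
  have n1 : ∀ N x, 1 ≤ ‖hN N x‖ := fun N x => (hN_re N x).trans (Complex.re_le_norm _)
  have n0 : ∀ N x, hN N x ≠ 0 := fun N x => norm_pos_iff.1 (one_pos.trans_le (n1 N x))
  have b : ∀ N, Bd fun x => (hN N x)⁻¹ := fun N => .of_cont ((hN_cont N).inv₀ (n0 N))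
  have m : ∀ N, M (fun x => (hN N x)⁻¹) h ∈ Wv v := by
    intro N
    obtain ⟨K, hK⟩ := isCompact_univ.exists_bound_of_continuousOn (hN_cont N).continuousOn
    have K1 : 1 ≤ K := (n1 N 0).trans (hK 0 trivial)
    have t0 : 0 < (K ^ 2)⁻¹ := by positivity
    have t1 : (K ^ 2)⁻¹ ≤ 1 := inv_le_one_of_one_le₀ (one_le_pow₀ K1)
    have t2 : (K ^ 2)⁻¹ * K ^ 2 = 1 := inv_mul_cancel₀ (by positivity)
    generalize (K ^ 2)⁻¹ = t at t0 t1 t2
    have b1 := (bd_const t).mul (hN_bd N)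
    have e1 : ∀ f, M (fun x => 1 - t * hN N x) f = f - (t : ℂ) • M (hN N) f := fun f => by
      rw [M_sub (bd_const 1) b1, M_one, M_smul (hN_bd N)]
    refine rec_gen (inv_Wv v).1 (R := M fun x => 1 - t * hN N x) (c := 1 - t / 2) (by linarith)
      (by linarith) (M_le ((bd_const 1).sub b1) fun x => ?_) (fun f hf => ?_)
      ((Wv v).smul_mem t hh) ?_
    · refine (abs_le_of_sq_le_sq' (a := ‖1 - t * hN N x‖) ?_ (by linarith)).2
      have h1 := hN_re N x
      have h2 : ‖hN N x‖ ^ 2 ≤ K ^ 2 := pow_le_pow_left₀ (norm_nonneg _) (hK x trivial) 2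
      rw [Complex.sq_norm, Complex.normSq_apply] at h2 ⊢
      simp only [Complex.sub_re, Complex.one_re, Complex.re_ofReal_mul, Complex.sub_im,
        Complex.one_im, Complex.im_ofReal_mul]
      nlinarith [mul_le_mul_of_nonneg_left h2 (sq_nonneg t), mul_le_mul_of_nonneg_left h1 t0.le]
    · rw [e1]
      exact sub_mem hf ((Wv v).smul_mem _ ((inv_Wv v).hN N hf))
    · rw [e1, ← M_mul (hN_bd N) (b N)]
      simp only [mul_inv_cancel₀ (n0 N _), M_one, add_sub_cancel]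
  refine Wv_zero hv ((inv_Wv v).1.mem_of_tendsto (b := atTop) ?_ (.of_forall m))
  refine tendsto_iff_norm_sub_tendsto_zero.2 (squeeze_zero (fun _ => norm_nonneg _) (fun N => ?_)
    (tendsto_iff_norm_sub_tendsto_zero.1 h_lim))
  have : e 0 = M (fun x => (hN N x)⁻¹) (M (hN N) (e 0)) := by
    rw [← M_mul (b N) (hN_bd N)]
    simp only [inv_mul_cancel₀ (n0 N _), M_one]
  nth_rw 1 [this]
  rw [← map_sub, norm_sub_rev (M _ _)]
  exact (M_le (b N) (fun x => by
    rw [norm_inv]; exact inv_le_one_of_one_le₀ (n1 N x)) _).trans_eq (one_mul _)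

theorem one_term {l : ℂ} (hl : ‖l‖ < 1) {f : L2} (hf : f ∈ H2) : ∃ (y : L2) (c : ℂ), ‖y‖ ≤ ‖f‖ ∧
    ‖c‖ ≤ ‖⟪k l, f⟫_ℂ‖ ∧ P (M (fun x => conj (kf l x)) f) = M (kf l) y + c • k l := by
  have b := Bd.of_cont (kf_cont hl)
  have b' := Bd.of_cont (nf_cont l)
  refine ⟨P (M (nf l) (M (fun x => conj (kf l x)) f)),
    conj l * ⟪e (-1), M (fun x => conj (kf l x)) f⟫_ℂ, (P_le _).trans ?_, ?_, ?_⟩
  · rw [← M_mul b' b.conj, norm_M (b'.mul b.conj) (.of_forall fun x => ?_)]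
    rw [norm_mul, Complex.norm_conj, kf, norm_inv]
    exact mul_inv_cancel₀ (norm_ne_zero_iff.2 (den_ne hl x))
  · rw [← M_adj b, kf_rec hl, M_comm z_bd b, z_e, inner_add_left, mem_H2.1 hf _ (by norm_num),
      inner_smul_left, zero_add, norm_mul, norm_mul, Complex.conj_conj, Complex.norm_conj]
    exact (mul_le_of_le_one_left (by positivity) hl.le).trans
      (mul_le_of_le_one_left (by positivity) hl.le)
  · generalize M (fun x => conj (kf l x)) f = w
    rw [k, ← map_smul, ← map_add, nf_op, map_sub, map_smul, P_z, smul_add, smul_smul, sub_add_eq_sub_sub,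
      sub_add_cancel, ← nf_op, ← M_mul b b']
    simp only [kf, nf, inv_mul_cancel₀ (den_ne hl _), M_one]

theorem g_C (x : T) : ‖g x‖ ≤ C := by simpa using g_le ∅ x

theorem gk_le (n : ℕ) (x : T) : ‖g x * kf (L n) x‖ ≤ C * ‖kf (U n) x‖ := by
  have h1 := g_le {n} x
  rw [prod_singleton] at h1
  rw [norm_mul]
  refine (mul_le_mul_of_nonneg_right h1 (norm_nonneg _)).trans_eq ?_
  rw [mul_assoc, ← norm_mul, γ, qf, mul_right_comm, nf, kf, mul_inv_cancel₀ (den_ne (L_lt n) x),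
    one_mul]

/-- approximating operators -/
noncomputable def An (N : ℕ) : L2 →L[ℂ] L2 := M g * P * M fun x => conj (hN N x)

theorem An_le (N : ℕ) {f : L2} (hf : f ∈ H2) (w : L2) :
    ‖⟪An N f, w⟫_ℂ‖ ≤ 10 * C * ‖f‖ * ‖w‖ := by
  choose y c h1 h2 h3 using fun n => one_term (L_lt n) hf
  have C0 := C_pos
  have s1 := bessel (w := fun n => ((a n ^ 3 : ℝ) : ℂ) • k (L n)) kL_le (fun n => by
    filter_upwards [rep_smul ((a n ^ 3 : ℝ) : ℂ) (k (L n)), rep_k (L_lt n)] with x e1 e2 hx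
    have := a_pos n
    rw [e1, e2, norm_mul, Complex.norm_real, Real.norm_of_nonneg (by positivity)]
    calc _ ≤ a n ^ 3 * (2 / a n) := by gcongr; exact kf_off (okL n) hx
      _ = 2 * a n * a n := by field_simp
      _ ≤ _ := by gcongr; linarith [a_le n]) f N
  have r : ∀ n, ∀ᵐ x ∂μ, ‖rep (((a n ^ 2 : ℝ) : ℂ) • M g (k (L n))) x‖ ≤
      C * (a n ^ 2 * ‖kf (U n) x‖) := fun n => by
    filter_upwards [rep_smul ((a n ^ 2 : ℝ) : ℂ) (M g (k (L n))), rep_M g_bd (k (L n)),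
      rep_k (L_lt n)] with x e1 e2 e3
    rw [e1, e2, e3, norm_mul, Complex.norm_real, Real.norm_of_nonneg (sq_nonneg _), mul_left_comm]
    gcongr
    exact gk_le n x
  have s2 := bessel (w := fun n => ((a n ^ 2 : ℝ) : ℂ) • M g (k (L n))) (K := 2 * C) (fun n => by
    refine (norm_le (c := C) (g := ((a n ^ 2 : ℝ) : ℂ) • k (U n)) ?_).trans (by nlinarith [kU_le n])
    filter_upwards [r n, rep_smul ((a n ^ 2 : ℝ) : ℂ) (k (U n)), rep_k (U_lt n)] with x e1 e2 e3
    rwa [e2, e3, norm_mul, Complex.norm_real, Real.norm_of_nonneg (sq_nonneg _)]) (fun n => by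
    filter_upwards [r n] with x e1 hx
    have := a_pos n
    calc _ ≤ C * (a n ^ 2 * (2 / a n)) := e1.trans (by gcongr; exact kf_off (okU n) hx)
      _ = _ := by field_simp) w N
  have s3 := (sum_mul_sq_le_sq_mul_sq _ _ _).trans (mul_le_mul s1 s2 (by positivity) (by positivity))
  rw [← mul_pow] at s3
  have s4 := (abs_le_of_sq_le_sq' s3 (by positivity)).2
  have s5 : ∀ n, ‖⟪((a n ^ 5 : ℝ) : ℂ) • M g (P (M (fun x => conj (kf (L n) x)) f)), w⟫_ℂ‖ ≤
      C * ‖f‖ * ‖w‖ * a n + ‖⟪((a n ^ 3 : ℝ) : ℂ) • k (L n), f⟫_ℂ‖ *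
        ‖⟪((a n ^ 2 : ℝ) : ℂ) • M g (k (L n)), w⟫_ℂ‖ := by
    intro n
    have h0 := a_pos n
    rw [h3, map_add, smul_add, inner_add_left, map_smul, ← M_mul g_bd (L_bd n)]
    refine (norm_add_le _ _).trans (add_le_add ((norm_inner_le_norm _ _).trans ?_) ?_)
    · rw [sm_norm _ (by positivity)]
      calc _ ≤ a n ^ 5 * (C * (a n ^ 4)⁻¹ * ‖f‖) * ‖w‖ := by
            gcongr
            refine (M_le (C := C * (a n ^ 4)⁻¹) (g_bd.mul (L_bd n))
              (fun x => (gk_le n x).trans ?_) _).trans ?_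
            · gcongr
              exact kf_le (okU n) x
            · gcongr
              exact h1 n
        _ = _ := by field_simp
    · simp only [inner_smul_left, norm_mul, Complex.norm_conj, Complex.norm_real,
        Real.norm_of_nonneg (pow_pos h0 _).le]
      calc _ ≤ a n ^ 5 * (‖⟪k (L n), f⟫_ℂ‖ * ‖⟪M g (k (L n)), w⟫_ℂ‖) := by
            gcongr
            exact h2 n
        _ = _ := by ring
  have s6 : ‖⟪M g (P f), w⟫_ℂ‖ ≤ C * ‖f‖ * ‖w‖ := (norm_inner_le_norm _ _).trans (by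
    gcongr
    exact (M_le g_bd g_C _).trans (by gcongr; exact P_le f))
  rw [An, mul_apply_eq_comp, mul_apply_eq_comp, hN_conj]
  simp only [map_add, map_sum, map_smul, inner_add_left, sum_inner]
  refine (norm_add_le _ _).trans ((add_le_add s6 ((norm_sum_le _ _).trans
    (sum_le_sum fun n _ => s5 n))).trans ?_)
  rw [sum_add_distrib, ← mul_sum]
  have := mul_le_mul_of_nonneg_left (a_sum_le (range N)) (show 0 ≤ C * ‖f‖ * ‖w‖ by positivity)
  have : 0 ≤ C * ‖f‖ * ‖w‖ := by positivity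
  linarith

theorem k_e0 {l : ℂ} (hl : ‖l‖ < 1) : ⟪k l, e 0⟫_ℂ = 1 := by
  rw [k, kf_rec hl, inner_add_left, inner_smul_left, ← inner_conj_symm (M z _), e_z,
    mem_H2.1 (kf_mem hl e0_mem) _ (by norm_num), e_e]
  simp

theorem An_low {n N : ℕ} (hn : n < N) :
    1 / 16 ≤ ‖⟪An N (((a n ^ 3 : ℝ) : ℂ) • k (L n)), ((a n ^ 2 : ℝ) : ℂ) • k (U n)⟫_ℂ‖ := by
  have h0 := a_pos n
  have e1 := okL n
  have e2 := okU n
  have e3 := e1.lt
  have e4 := e2.lt
  have e5 : a n ^ 6 ≤ a n ^ 4 := pow_le_pow_of_le_one h0.le (by linarith [a_le n]) (by norm_num)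
  have s1 := P_conj (hN_bd N) (L_lt n)
    (c := 1 + ∑ m ∈ range N, (a m ^ 5 : ℝ) * (1 - conj (L m) * L n)⁻¹) fun w hw => by
      simp only [hN_op, inner_add_right, inner_sum, inner_smul_right, k_kf (L_lt n) (L_lt _) hw,
        add_mul, one_mul, sum_mul, mul_assoc]
  have s2 : a n ^ 5 * (2 * a n ^ 6)⁻¹ ≤
      ‖1 + ∑ m ∈ range N, (a m ^ 5 : ℝ) * (1 - conj (L m) * L n)⁻¹‖ := by
    refine le_trans ?_ (Complex.re_le_norm _)
    rw [Complex.add_re, Complex.re_sum, Complex.one_re]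
    refine le_add_of_nonneg_of_le zero_le_one (le_trans ?_ (single_le_sum (fun m _ => ?_)
      (mem_range.2 hn)))
    · rw [Complex.re_ofReal_mul, L, same, ← Complex.ofReal_inv, Complex.ofReal_re]
      gcongr
      · nlinarith [e1.1]
      · nlinarith [e1.1]
    · rw [Complex.re_ofReal_mul]
      refine mul_nonneg (pow_pos (a_pos m) _).le (inv_re ?_)
      rw [norm_mul, Complex.norm_conj]
      exact mul_le_one₀ (L_lt m).le (norm_nonneg _) (L_lt n).le
  have s3 := g_low n (k_mem (L_lt n))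
  have s4 : (2 * a n ^ 4)⁻¹ ≤ ‖⟪k (U n), k (L n)⟫_ℂ‖ := by
    rw [show k (L n) = M (kf (L n)) (e 0) from rfl, k_kf (U_lt n) (L_lt n) e0_mem, k_e0 (U_lt n),
      mul_one, L, U, same, norm_inv, Complex.norm_real, Real.norm_of_nonneg (by nlinarith [e1.1, e2.1])]
    gcongr
    · nlinarith [e1.1, e2.1]
    · nlinarith [e1.1, e2.1]
  rw [map_smul, An, mul_apply_eq_comp, mul_apply_eq_comp, s1, map_smul, inner_smul_left,
    inner_smul_left, inner_smul_right, norm_mul, norm_mul, norm_mul, norm_inner_symm]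
  simp only [Complex.norm_conj, Complex.norm_real, Real.norm_of_nonneg (pow_pos h0 _).le]
  calc _ = a n ^ 3 * (a n ^ 5 * (2 * a n ^ 6)⁻¹ * (a n ^ 2 * (1 / 4 * (2 * a n ^ 4)⁻¹))) := by
        field_simp
        norm_num
    _ ≤ _ := by
        gcongr
        exact le_trans (by gcongr) s3

end Pool.Agent.H.MP_db815c_an
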