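import Pool.Agent.H.MP_db815c_an.C

set_option autoImplicit false

namespace Pool.Agent.H.MP_db815c_an

open MeasureTheory ComplexConjugate Filter Topology Metric Pool.Agent.H.MP_4f6fd6_an Finset
open scoped ENNReal InnerProductSpace

/-- scales -/
noncomputable def s (n j : ℕ) : ℝ := a n ^ 4 / 4 * (1 / 2) ^ j

theorem s_le (n j : ℕ) : s n j ≤ a n ^ 4 / 4 :=
  mul_le_of_le_one_right (by have := a_pos n; positivity) (pow_le_one₀ (by norm_num) (by norm_num))

theorem oks (n j : ℕ) : Ok n (s n j) :=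
  ⟨by have := a_pos n; unfold s; positivity, by linarith [s_le n j, (okU n).1, (okU n).2]⟩

theorem s_ge {n j : ℕ} (hj : j < n + 1) : a n ^ 6 ≤ s n j := by
  have h0 := a_pos n
  have h1 : 4 * a n ≤ (1 / 2) ^ j := by
    rw [a, mul_div_cancel₀ _ four_ne_zero]
    exact pow_le_pow_of_le_one (by norm_num) (by norm_num) (by omega)
  calc _ = a n ^ 4 / 4 * (4 * a n * a n) := by ring
    _ ≤ _ := by
      unfold s
      gcongr
      nlinarith [a_le n]

/-- the averaged kernel -/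
noncomputable def F (n : ℕ) (x : T) : ℂ :=
  ∑ j ∈ range (n + 1), (s n j / (n + 1) : ℝ) * kf (pt n (s n j)) x

theorem F_bd (n : ℕ) : Bd (F n) :=
  memLp_finsetSum _ fun j _ => (bd_const _).mul (pt_bd (oks n j))

theorem F_op (n : ℕ) (f : L2) :
    M (F n) f = ∑ j ∈ range (n + 1), ((s n j / (n + 1) : ℝ) : ℂ) • M (kf (pt n (s n j))) f := by
  have := M_sum (fun j => (bd_const (s n j / (n + 1) : ℝ)).mul (pt_bd (oks n j))) (n + 1) f
  simp only [M_smul (pt_bd (oks n _))] at this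
  exact this

theorem F_mem (n : ℕ) {f : L2} (hf : f ∈ H2) : M (F n) f ∈ H2 :=
  F_op n f ▸ sum_mem fun j _ => H2.smul_mem _ (kf_mem (pt_lt (oks n j)) hf)

theorem avg (n : ℕ) (c : ℝ) : ∑ _j ∈ range (n + 1), c / (n + 1) = c := by
  rw [sum_const, card_range, nsmul_eq_mul, Nat.cast_succ, mul_div_cancel₀ _ (by positivity)]

theorem F_le (n : ℕ) (x : T) : ‖F n x‖ ≤ 1 := by
  refine (norm_sum_le _ _).trans ((sum_le_sum fun j _ => ?_).trans_eq (avg n 1))
  have := (oks n j).1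
  rw [norm_mul, Complex.norm_real, Real.norm_of_nonneg (by positivity), div_mul_eq_mul_div]
  gcongr
  exact (mul_le_mul_of_nonneg_left (kf_le (oks n j) x) this.le).trans_eq (mul_inv_cancel₀ this.ne')

theorem im_le {w : ℂ} (hw : ‖w‖ = 1) {t : ℝ} (h0 : 0 < t) (h1 : t ≤ 1 / 8) :
    t * |(1 - (1 - t : ℝ) * w)⁻¹.im| ≤
      7 * (‖1 - w‖ / (‖1 - w‖ + t / 2) - ‖1 - w‖ / (‖1 - w‖ + t)) := by
  have e1 : w.re * w.re + w.im * w.im = 1 := by rw [← Complex.normSq_apply, ← Complex.sq_norm, hw, one_pow]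
  have e2 : ‖1 - w‖ ^ 2 = 2 - 2 * w.re := by
    rw [Complex.sq_norm, Complex.normSq_apply]
    simp
    linarith
  have e3 : |w.im| ≤ ‖1 - w‖ := by simpa using Complex.abs_im_le_norm (1 - w)
  have e4 : Complex.normSq (1 - (1 - t : ℝ) * w) = t ^ 2 + (1 - t) * ‖1 - w‖ ^ 2 := by
    rw [e2, Complex.normSq_apply]
    simp
    linear_combination (1 - t) ^ 2 * e1
  have d0 := norm_nonneg (1 - w)
  generalize ‖1 - w‖ = d at *
  have e5 : 0 < t ^ 2 + (1 - t) * d ^ 2 := by nlinarith [sq_nonneg d, sq_pos_of_pos h0]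
  rw [Complex.inv_im, e4, abs_div, abs_of_pos e5, abs_neg, Complex.sub_im, Complex.one_im,
    Complex.im_ofReal_mul, zero_sub, abs_neg, abs_mul, abs_of_pos (show 0 < 1 - t by linarith)]
  calc _ ≤ t * (1 * d / (t ^ 2 + 1 / 2 * d ^ 2)) := by gcongr <;> linarith
    _ = t * d * (1 / (t ^ 2 + 1 / 2 * d ^ 2)) := by ring
    _ ≤ t * d * (7 / 2 / ((d + t / 2) * (d + t))) := by
        refine mul_le_mul_of_nonneg_left ?_ (by positivity)
        rw [div_le_div_iff₀ (by positivity) (by positivity)]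
        nlinarith [sq_nonneg (d - t)]
    _ = _ := by
        field_simp
        ring

theorem F_im (n : ℕ) (x : T) : |(F n x).im| ≤ 7 / (n + 1) := by
  have hw : ‖conj (z (p n)) * z x‖ = 1 := by simp [z_norm]
  set d := ‖1 - conj (z (p n)) * z x‖
  have d0 : 0 ≤ d := norm_nonneg _
  rw [F, Complex.im_sum]
  refine (abs_sum_le_sum_abs _ _).trans ((sum_le_sum (g := fun j =>
    7 / (n + 1) * (d / (d + s n (j + 1)) - d / (d + s n j))) fun j _ => ?_).trans ?_)
  · have h0 := (oks n j).1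
    have := im_le hw h0 (oks n j).lt
    rw [Complex.im_ofReal_mul, abs_mul, abs_of_pos (by positivity), kf, pt, map_mul,
      Complex.conj_ofReal, mul_assoc, div_mul_eq_mul_div, div_mul_eq_mul_div,
      show s n (j + 1) = s n j / 2 by unfold s; ring]
    gcongr
  · rw [← mul_sum, sum_range_sub fun j => d / (d + s n j)]
    refine mul_le_of_le_one_right (by positivity) ?_
    have h1 := (oks n 0).1
    have h2 := (oks n (n + 1)).1
    have : d / (d + s n (n + 1)) ≤ 1 := div_le_one_of_le₀ (by linarith) (by linarith)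
    have : 0 ≤ d / (d + s n 0) := by positivity
    linarith

/-- real part -/
noncomputable def u (n : ℕ) (x : T) : ℂ := (F n x).re

theorem u_bd (n : ℕ) : Bd (u n) := (F_bd n).re.ofReal

theorem u_F (n : ℕ) (x : T) : ‖u n x - F n x‖ ≤ 7 / (n + 1) := by
  rw [show u n x - F n x = -(F n x).im * Complex.I by simp [u, Complex.ext_iff]]
  simpa using F_im n x

theorem u_F' (n : ℕ) (x : T) : ‖u n x - conj (F n x)‖ ≤ 7 / (n + 1) := by
  rw [← Complex.norm_conj, map_sub, Complex.conj_conj, u, Complex.conj_ofReal]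
  exact u_F n x

theorem u_adj (n : ℕ) (f w : L2) : ⟪M (u n) f, w⟫_ℂ = ⟪f, M (u n) w⟫_ℂ := by
  simp only [M_adj (u_bd n), u, Complex.conj_ofReal]
  rfl

theorem u_le (n : ℕ) (f : L2) : ‖M (u n) f‖ ≤ ‖f‖ :=
  (M_le (u_bd n) (fun x => by
    simpa [u] using (Complex.abs_re_le_norm _).trans (F_le n x)) f).trans_eq (one_mul _)

theorem u_comm (n : ℕ) (w : L2) : ‖M (u n) (P w) - P (M (u n) w)‖ ≤ 28 / (n + 1) * ‖w‖ := by
  have h1 := M_le ((u_bd n).sub (F_bd n)) (u_F n) (P w)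
  have h2 := M_le ((u_bd n).sub (F_bd n).conj) (u_F' n) (w - P w)
  have h3 : P (M (fun x => conj (F n x)) w) = P (M (fun x => conj (F n x)) (P w)) :=
    P_eq fun t ht => by rw [← M_adj (F_bd n), ← M_adj (F_bd n), P_inner (F_mem n ht)]
  have h4 := P_self (F_mem n (P_mem w))
  change ‖M (fun x => u n x - F n x) _‖ ≤ _ at h1
  change ‖M (fun x => u n x - conj (F n x)) _‖ ≤ _ at h2
  rw [M_sub (u_bd n) (F_bd n)] at h1
  rw [M_sub (u_bd n) (F_bd n).conj] at h2
  have h5 := (P_le _).trans h1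
  have h6 := (P_le _).trans h2
  have h7 := (norm_sub_le w (P w)).trans (add_le_add_right (P_le w) _)
  have h8 := mul_le_mul_of_nonneg_left (P_le w) (show (0 : ℝ) ≤ 7 / (n + 1) by positivity)
  have h9 := mul_le_mul_of_nonneg_left h7 (show (0 : ℝ) ≤ 7 / (n + 1) by positivity)
  rw [show M (u n) (P w) - P (M (u n) w) = M (u n) (P w) - M (F n) (P w) -
    P (M (u n) (P w) - M (F n) (P w)) - P (M (u n) (w - P w) - M (fun x => conj (F n x)) (w - P w)) by
      simp only [map_sub, h3, h4]; abel]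
  refine (norm_sub_le _ _).trans ((add_le_add_left (norm_sub_le _ _) _).trans ?_)
  rw [show (28 : ℝ) / (n + 1) = 4 * (7 / (n + 1)) by ring]
  linarith

/-- approximate eigenvalue -/
noncomputable def β (n : ℕ) (t : ℝ) : ℝ :=
  ∑ j ∈ range (n + 1), s n j / (s n j + t - s n j * t) / (n + 1)

theorem u_eig {n : ℕ} {t : ℝ} (ht : Ok n t) (c : ℂ) :
    ‖P (M (u n) (c • k (pt n t))) - (β n t : ℂ) • c • k (pt n t)‖ ≤ 7 / (n + 1) * ‖c • k (pt n t)‖ := by
  have h1 := P_conj (F_bd n) (pt_lt ht) (c := β n t) fun w hw => by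
    simp only [F_op, inner_sum, inner_smul_right, k_kf (pt_lt ht) (pt_lt (oks n _)) hw, same, β,
      Complex.ofReal_sum, sum_mul]
    refine sum_congr rfl fun j _ => ?_
    push_cast
    ring
  have h2 := (P_le _).trans (M_le ((u_bd n).sub (F_bd n).conj) (u_F' n) (c • k (pt n t)))
  change ‖P (M (fun x => u n x - conj (F n x)) _)‖ ≤ _ at h2
  rwa [M_sub (u_bd n) (F_bd n).conj, map_sub, map_smul (M fun x => conj (F n x)), map_smul P, h1,
    Complex.conj_ofReal, smul_comm] at h2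

theorem β_gap (n : ℕ) : 1 / 4 ≤ β n (a n ^ 6) - β n (a n ^ 4) := by
  rw [β, β, ← sum_sub_distrib, ← avg n (1 / 4)]
  refine sum_le_sum fun j hj => ?_
  have h1 := s_ge (mem_range.1 hj)
  have h2 := s_le n j
  have h3 := oks n j
  have h4 := h3.lt
  have h5 := (okL n).1
  have h6 := (okU n).lt
  have h7 := h3.1
  rw [← sub_div]
  gcongr
  have e1 : 1 / 2 ≤ s n j / (s n j + a n ^ 6 - s n j * a n ^ 6) := by
    rw [le_div_iff₀ (by nlinarith)]
    nlinarith
  have e2 : s n j / (s n j + a n ^ 4 - s n j * a n ^ 4) ≤ 1 / 4 := by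
    rw [div_le_iff₀ (by nlinarith)]
    nlinarith
  linarith

end Pool.Agent.H.MP_db815c_an
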