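import Pool.Agent.H.MP_db815c_an.D

set_option autoImplicit false

namespace Pool.Agent.H.MP_db815c_an

open MeasureTheory ComplexConjugate Filter Topology Metric Pool.Agent.H.MP_4f6fd6_an Finset
open scoped ENNReal InnerProductSpace

/-- sequence space -/
abbrev l2 : Type := lp (fun _ : ℕ => ℂ) 2

theorem en_on : Orthonormal ℂ fun n : ℕ => e n := e_on.comp _ Nat.cast_injective

/-- the embedding -/
noncomputable def J : l2 →L[ℂ] L2 := en_on.orthogonalFamily.linearIsometry.toContinuousLinearMap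

/-- its adjoint -/
noncomputable def Jt : L2 →L[ℂ] l2 := ContinuousLinearMap.adjoint J

theorem J_norm (c : l2) : ‖J c‖ = ‖c‖ := en_on.orthogonalFamily.linearIsometry.norm_map c

theorem J_sum (c : l2) : HasSum (fun n => c n • e n) (J c) :=
  en_on.orthogonalFamily.hasSum_linearIsometry c

theorem J_single (j : ℕ) : J (lp.single 2 j 1) = e j :=
  (en_on.orthogonalFamily.linearIsometry_apply_single (1 : ℂ)).trans (one_smul _ _)

theorem J_mem (c : l2) : J c ∈ H2 := inv_H2.1.mem_of_tendsto (J_sum c)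
  (.of_forall fun _ => sum_mem fun n _ => H2.smul_mem _ (e_mem (Nat.cast_nonneg n)))

theorem Jt_left (f : L2) (c : l2) : ⟪Jt f, c⟫_ℂ = ⟪f, J c⟫_ℂ := J.adjoint_inner_left c f

theorem Jt_right (f : L2) (c : l2) : ⟪c, Jt f⟫_ℂ = ⟪J c, f⟫_ℂ := J.adjoint_inner_right c f

theorem coord (c : l2) (m : ℕ) : ⟪lp.single 2 m 1, c⟫_ℂ = c m := by simp [lp.inner_single_left]

theorem Jt_apply (f : L2) (n : ℕ) : Jt f n = ⟪e n, f⟫_ℂ := by
  rw [← coord, Jt_right, J_single]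

theorem e_J (c : l2) (n : ℕ) : ⟪e n, J c⟫_ℂ = c n := by
  rw [← coord, ← J_single]
  exact en_on.orthogonalFamily.linearIsometry.inner_map_map _ _

theorem J_Jt (f : L2) : J (Jt f) = P f := ext_e fun n => by
  rw [e_P]
  split_ifs with h
  · lift n to ℕ using h
    rw [e_J, Jt_apply]
  · exact mem_H2.1 (J_mem _) n (not_le.1 h)

theorem Jt_le (f : L2) : ‖Jt f‖ ≤ ‖f‖ := by
  rw [← J_norm, J_Jt]
  exact P_le f

theorem Jt_P (f : L2) : Jt (P f) = Jt f :=
  ext_inner_left ℂ fun c => by rw [Jt_right, Jt_right, P_inner (J_mem c)]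

theorem cyc {f : L2} (hf : f ∈ H2) (h : ∀ v ∈ H2, f ∈ Wv v → v = 0) (c : ℕ → ℂ) (hc : Memℓp c 2)
    (h0 : ∀ j : ℕ, ∑' n : ℕ, Jt f n * conj (c (n + j)) = 0) : c = 0 := by
  have h1 := h (J ⟨c, hc⟩) (J_mem _) (mem_Wv.2 fun j => ?_)
  · funext n
    have := e_J ⟨c, hc⟩ n
    rw [h1, inner_zero_right] at this
    exact this.symm
  have h2 := ((innerSL ℂ (J ⟨c, hc⟩)).comp (M z ^ j)).hasSum (J_sum (Jt f))
  rw [J_Jt, P_self hf] at h2
  refine h2.tsum_eq.symm.trans ((tsum_congr fun n => ?_).trans (h0 j))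
  rw [map_smul, ContinuousLinearMap.comp_apply, zpow_e, innerSL_apply_apply, ← inner_conj_symm,
    ← Nat.cast_add, e_J, smul_eq_mul]

/-- compression -/
noncomputable def cmp (X : L2 →L[ℂ] L2) : l2 →L[ℂ] l2 := Jt.comp (X.comp J)

theorem cmp_apply (X : L2 →L[ℂ] L2) (c : l2) : cmp X c = Jt (X (J c)) := rfl

theorem shift {ψ : T → ℂ} (hψ : Bd ψ) (m j : ℤ) :
    ⟪e m, M ψ (e j)⟫_ℂ = ⟪e (m - j), M ψ (e 0)⟫_ℂ := by rw [coef hψ, coef hψ, sub_zero]

theorem entry (N j m : ℕ) : ⟪e m, An N (e j)⟫_ℂ = ∑ n ∈ range (j + 1),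
    if j - n ≤ m then conj (Jt (M (hN N) (e 0)) n) * Jt (M g (e 0)) (m + n - j) else 0 := by
  have h1 : P (M (fun x => conj (hN N x)) (e j)) =
      ∑ n ∈ range (j + 1), conj (Jt (M (hN N) (e 0)) n) • e (j - n) := ext_e fun i => by
    have m := inv_H2.hN N e0_mem
    simp only [e_P, inner_sum, inner_smul_right, e_e, mul_ite, mul_one, mul_zero]
    rw [← M_adj (hN_bd N), ← inner_conj_symm, shift (hN_bd N)]
    by_cases h : 0 ≤ i ∧ i ≤ j
    · rw [if_pos h.1, sum_eq_single (j - i).toNat (fun n _ hn => if_neg (by omega))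
        (fun hn => absurd (mem_range.2 (by omega)) hn), if_pos (by omega), Jt_apply,
        Int.toNat_of_nonneg (by omega)]
    · rw [sum_eq_zero fun n hn => if_neg (by have := mem_range.1 hn; omega)]
      split_ifs with h'
      · rw [mem_H2.1 m _ (by omega), map_zero]
      · rfl
  rw [An, mul_apply_eq_comp, mul_apply_eq_comp, h1, map_sum, inner_sum]
  refine sum_congr rfl fun n hn => ?_
  have := mem_range.1 hn
  rw [map_smul, inner_smul_right, shift g_bd]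
  split_ifs with h
  · rw [Jt_apply (M g _)]
    congr 3
    omega
  · rw [mem_H2.1 (g_mem e0_mem) _ (by omega), mul_zero]

theorem toep_comm {B : l2 →L[ℂ] l2} {ψ : T → ℂ} (hψ : Bd ψ)
    (h : ∀ i j : ℕ, B (lp.single 2 j 1) i = fourierCoeff ψ ((i : ℤ) - j)) :
    Tendsto (fun n => cmp (M (u n)) * B - B * cmp (M (u n))) atTop (𝓝 0) := by
  obtain rfl : B = cmp (M ψ) := by
    refine lp.ext_continuousLinearMap (by simp) fun j => ContinuousLinearMap.ext_ring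
      (lp.ext (funext fun i => ?_))
    exact (h i j).trans (by rw [← coef hψ, ← J_single j, ← Jt_apply]; rfl)
  refine squeeze_zero_norm (a := fun n : ℕ => 56 * ‖M ψ‖ / (n + 1)) (fun n => ?_) ?_
  · refine ContinuousLinearMap.opNorm_le_bound _ (by positivity) fun c => ?_
    have e1 : (cmp (M (u n)) * cmp (M ψ) - cmp (M ψ) * cmp (M (u n))) c =
        Jt (M (u n) (P (M ψ (J c))) - P (M (u n) (M ψ (J c))) +
          M ψ (M (u n) (P (J c)) - P (M (u n) (J c)))) := by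
      simp only [_root_.sub_apply, mul_apply_eq_comp, cmp_apply, J_Jt, map_add, map_sub, Jt_P,
        P_self (J_mem c), M_comm hψ (u_bd n)]
      abel
    rw [e1]
    calc _ ≤ 28 / (n + 1) * (‖M ψ‖ * ‖J c‖) + ‖M ψ‖ * (28 / (n + 1) * ‖J c‖) := by
          refine (Jt_le _).trans ((norm_add_le _ _).trans (add_le_add ((u_comm n _).trans ?_)
            (((M ψ).le_opNorm _).trans ?_))) <;> gcongr
          exacts [(M ψ).le_opNorm _, u_comm n _]
      _ = _ := by rw [J_norm]; ring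
  · simpa [Function.comp_def] using (tendsto_const_div_atTop_nhds_zero_nat (56 * ‖M ψ‖)).comp (tendsto_add_atTop_nat 1)

theorem eig {n : ℕ} {t : ℝ} (ht : Ok n t) {c : ℂ} (hc : ‖c • k (pt n t)‖ ≤ 1) :
    ‖Jt (c • k (pt n t))‖ ≤ 1 ∧ J (Jt (c • k (pt n t))) = c • k (pt n t) ∧
    ‖cmp (M (u n)) (Jt (c • k (pt n t))) - (β n t : ℂ) • Jt (c • k (pt n t))‖ ≤ 7 / (n + 1) := by
  have h1 : J (Jt (c • k (pt n t))) = c • k (pt n t) := by
    rw [J_Jt, P_self (H2.smul_mem _ (k_mem (pt_lt ht)))]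
  refine ⟨(Jt_le _).trans hc, h1, ?_⟩
  rw [cmp_apply, h1, ← Jt_P, ← map_smul Jt, ← map_sub]
  exact (Jt_le _).trans ((u_eig ht c).trans (mul_le_of_le_one_right (by positivity) hc))

theorem final : ∃ A : l2 →L[ℂ] l2, (∀ j m : ℕ, A (lp.single 2 j 1) m = ∑ n ∈ range (j + 1),
    if j - n ≤ m then conj (Jt h n) * Jt (M g (e 0)) (m + n - j) else 0) ∧
    ¬Tendsto (fun n => cmp (M (u n)) * A - A * cmp (M (u n))) atTop (𝓝 0) := by
  obtain ⟨A, hA⟩ := exists_wot (fun N => cmp (An N)) (C := 10 * C) fun N x y => by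
    rw [cmp_apply, Jt_left, ← J_norm, ← J_norm]
    exact An_le N (J_mem x) _
  refine ⟨A, fun j m => ?_, fun ht => ?_⟩
  · have h1 := (Complex.continuous_conj.tendsto _).comp (hA (lp.single 2 j 1) (lp.single 2 m 1))
    rw [inner_conj_symm, coord] at h1
    refine tendsto_nhds_unique h1 (Tendsto.mono_left ?_ Nat.hyperfilter_le_atTop)
    simp only [Function.comp_def, inner_conj_symm, cmp_apply, Jt_right, J_single, entry]
    refine tendsto_finsetSum _ fun n _ => ?_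
    split_ifs
    · simp only [Jt_apply]
      exact ((Complex.continuous_conj.tendsto _).comp (tendsto_const_nhds.inner h_lim)).mul_const _
    · exact tendsto_const_nhds
  have h2 : Tendsto (fun n : ℕ => ‖cmp (M (u n)) * A - A * cmp (M (u n))‖ + 14 * ‖A‖ / (n + 1))
      atTop (𝓝 0) := by
    simpa using ht.norm.add
      ((tendsto_const_div_atTop_nhds_zero_nat (14 * ‖A‖)).comp (tendsto_add_atTop_nat 1))
  refine absurd (ge_of_tendsto' h2 fun n => ?_) (show ¬(1 / 4 * (1 / 16) : ℝ) ≤ 0 by norm_num)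
  obtain ⟨x1, x2, x3⟩ := eig (okL n) (kL_le n)
  obtain ⟨y1, y2, y3⟩ := eig (okU n) (kU_le n)
  have h3 : 1 / 16 ≤ ‖⟪A (Jt (((a n ^ 3 : ℝ) : ℂ) • k (pt n (a n ^ 6)))),
      Jt (((a n ^ 2 : ℝ) : ℂ) • k (pt n (a n ^ 4)))⟫_ℂ‖ := by
    refine ge_of_tendsto (hA _ _).norm (Eventually.filter_mono Nat.hyperfilter_le_atTop ?_)
    filter_upwards [eventually_gt_atTop n] with N hN
    rw [cmp_apply, Jt_left, x2, y2]
    exact An_low hN
  generalize Jt (((a n ^ 3 : ℝ) : ℂ) • k (pt n (a n ^ 6))) = x at *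
  generalize Jt (((a n ^ 2 : ℝ) : ℂ) • k (pt n (a n ^ 4))) = y at *
  have h4 := β_gap n
  have h5 : ∀ v w, ⟪cmp (M (u n)) v, w⟫_ℂ = ⟪v, cmp (M (u n)) w⟫_ℂ := fun v w => by
    rw [cmp_apply, cmp_apply, Jt_left, Jt_right, u_adj]
  generalize cmp (M (u n)) = G at *
  have h6 : ((β n (a n ^ 6) - β n (a n ^ 4) : ℝ) : ℂ) * ⟪A x, y⟫_ℂ = ⟪A x, G y - (β n (a n ^ 4) : ℂ) • y⟫_ℂ -
      ⟪A (G x - (β n (a n ^ 6) : ℂ) • x), y⟫_ℂ - ⟪(G * A - A * G) x, y⟫_ℂ := by
    simp only [_root_.sub_apply, mul_apply_eq_comp, inner_sub_left, inner_sub_right, map_sub,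
      map_smul, inner_smul_left, inner_smul_right, h5, Complex.conj_ofReal, Complex.ofReal_sub]
    ring
  have h7 : ∀ (B : l2 →L[ℂ] l2) v w, ‖⟪B v, w⟫_ℂ‖ ≤ ‖B‖ * ‖v‖ * ‖w‖ := fun B v w =>
    (norm_inner_le_norm _ _).trans (by gcongr; exact B.le_opNorm v)
  calc _ ≤ ‖((β n (a n ^ 6) - β n (a n ^ 4) : ℝ) : ℂ) * ⟪A x, y⟫_ℂ‖ := by
        rw [norm_mul, Complex.norm_real, Real.norm_of_nonneg (by linarith)]
        gcongr
    _ ≤ ‖A‖ * 1 * (7 / (n + 1)) + ‖A‖ * (7 / (n + 1)) * 1 + ‖G * A - A * G‖ * 1 * 1 := by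
        rw [h6]
        refine (norm_sub_le _ _).trans (add_le_add ((norm_sub_le _ _).trans (add_le_add
          ((h7 _ _ _).trans ?_) ((h7 _ _ _).trans ?_))) ((h7 _ _ _).trans ?_)) <;> gcongr
    _ = _ := by ring

theorem G_star (n : ℕ) : star (cmp (M (u n))) = cmp (M (u n)) :=
  (ContinuousLinearMap.eq_adjoint_iff _ _).2 (fun v w => by
    rw [cmp_apply, cmp_apply, Jt_left, Jt_right, u_adj]) |>.symm

theorem G_le (n : ℕ) : ‖cmp (M (u n))‖ ≤ 1 :=
  ContinuousLinearMap.opNorm_le_bound _ zero_le_one fun c =>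
    (Jt_le _).trans ((u_le n (J c)).trans_eq (by rw [J_norm, one_mul]))

theorem cyc_g (c : ℕ → ℂ) (hc : Memℓp c 2)
    (h0 : ∀ j : ℕ, ∑' n : ℕ, Jt (M g (e 0)) n * conj (c (n + j)) = 0) : c = 0 :=
  cyc (g_mem e0_mem) (fun _ => g_cyc) c hc h0

theorem cyc_h (c : ℕ → ℂ) (hc : Memℓp c 2)
    (h0 : ∀ j : ℕ, ∑' n : ℕ, Jt h n * conj (c (n + j)) = 0) : c = 0 :=
  cyc h_mem (fun _ => h_cyc) c hc h0

end Pool.Agent.H.MP_db815c_an
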